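import Pool.Agent.H12R3.VR.Stmts

/-!
# Task RegA of project H12-VR

A function which is continuous at one point and whose closed graph is invariant under an affine
flow that is transversal to the vertical line there is differentiable near that point.
-/

set_option autoImplicit false

open Filter Topology Set

namespace Pool.Agent.H26R3.VR.RegA

open H12VR

/-- the closure of the graph meets the vertical line at a point of continuity only once -/
theorem closure_gr_point {f : ℝ → ℝ} {x₀ : ℝ} (hf : ContinuousAt f x₀) {p : ℝ × ℝ}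
    (hp : p ∈ closure (gr f)) (h1 : p.1 = x₀) : p = (x₀, f x₀) := by
  obtain ⟨u, hu, hlim⟩ := mem_closure_iff_seq_limit.1 hp
  have l1 : Tendsto (fun n => (u n).1) atTop (𝓝 x₀) := by
    have := (continuous_fst.tendsto p).comp hlim
    rw [h1] at this
    exact this
  have l2 : Tendsto (fun n => (u n).2) atTop (𝓝 p.2) := (continuous_snd.tendsto p).comp hlim
  have l3 : Tendsto (fun n => f (u n).1) atTop (𝓝 (f x₀)) := hf.tendsto.comp l1
  have e : (fun n => (u n).2) = fun n => f (u n).1 := by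
    funext n
    exact hu n
  rw [e] at l2
  have h2 : p.2 = f x₀ := tendsto_nhds_unique l2 l3
  exact Prod.ext h1 h2

theorem fd_continuous (X : Fin 6 → ℝ) : Continuous (fd X) := by
  unfold fd
  fun_prop

theorem t : H12VR.TaskRegA := by
  intro hODE f x₀ X hf hInv hne
  obtain ⟨Φ, hΦ0, hΦadd, hΦc, hΦd, -⟩ := hODE X
  set p0 : ℝ × ℝ := (x₀, f x₀) with hp0
  set γ : ℝ → ℝ × ℝ := fun t => Φ t p0 with hγ
  have hγ0 : γ 0 = p0 := hΦ0 p0
  have hγd : ∀ t, HasDerivAt γ (fd X (γ t)) t := fun t => hΦd p0 t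
  have hγc : Continuous γ := continuous_iff_continuousAt.2 fun t => (hγd t).continuousAt
  set g : ℝ → ℝ := fun t => (fd X (γ t)).1 with hg
  have hgc : Continuous g := ((fd_continuous X).comp hγc).fst
  have hg0 : g 0 ≠ 0 := by
    rw [hg]
    simp only [hγ0]
    exact hne
  have hγ1 : ∀ t, HasDerivAt (fun t => (γ t).1) (g t) t := fun t => (hγd t).fst
  have hγ2 : ∀ t, HasDerivAt (fun t => (γ t).2) (fd X (γ t)).2 t := fun t => (hγd t).snd
  have hstrict : HasStrictDerivAt (fun t => (γ t).1) (g 0) 0 :=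
    hasStrictDerivAt_of_hasDerivAt_of_continuousAt (Eventually.of_forall hγ1) hgc.continuousAt
  have hsF := hstrict.hasStrictFDerivAt_equiv hg0
  let e := hsF.toOpenPartialHomeomorph (fun t => (γ t).1)
  have he : ∀ t, e t = (γ t).1 := fun t => rfl
  have h0s : (0 : ℝ) ∈ e.source := hsF.mem_toOpenPartialHomeomorph_source
  -- the sign change
  have hsl : Tendsto (fun t : ℝ => t⁻¹ * ((γ t).1 - x₀)) (𝓝[≠] 0) (𝓝 (g 0)) := by
    have := (hasDerivAt_iff_tendsto_slope_zero.1 (hγ1 0))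
    refine this.congr fun t => ?_
    simp [hγ0, hp0]
  have hsl2 : Tendsto (fun t : ℝ => (-t)⁻¹ * ((γ (-t)).1 - x₀)) (𝓝[≠] 0) (𝓝 (g 0)) := by
    refine hsl.comp ?_
    refine tendsto_nhdsWithin_iff.2 ⟨?_, ?_⟩
    · have : Tendsto (fun t : ℝ => -t) (𝓝 0) (𝓝 (-0)) := (continuous_neg.tendsto 0)
      rw [neg_zero] at this
      exact this.mono_left nhdsWithin_le_nhds
    · filter_upwards [self_mem_nhdsWithin] with t ht
      simpa using ht
  have hprod : ∀ᶠ t : ℝ in 𝓝[≠] 0, 0 < (t⁻¹ * ((γ t).1 - x₀)) * ((-t)⁻¹ * ((γ (-t)).1 - x₀)) := by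
    have h1 := hsl.mul hsl2
    have h2 : 0 < g 0 * g 0 := mul_self_pos.2 hg0
    exact h1.eventually (lt_mem_nhds h2)
  have hprod' : ∀ᶠ t : ℝ in 𝓝[>] 0, ((γ t).1 - x₀) * ((γ (-t)).1 - x₀) < 0 := by
    have h3 : ∀ᶠ t : ℝ in 𝓝[>] 0,
        0 < (t⁻¹ * ((γ t).1 - x₀)) * ((-t)⁻¹ * ((γ (-t)).1 - x₀)) :=
      hprod.filter_mono (nhdsWithin_mono _ fun t ht => ne_of_gt ht)
    filter_upwards [h3, self_mem_nhdsWithin] with t ht htpos
    have htp : (0 : ℝ) < t := htpos
    have h4 : (t⁻¹ * ((γ t).1 - x₀)) * ((-t)⁻¹ * ((γ (-t)).1 - x₀)) =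
        -(((γ t).1 - x₀) * ((γ (-t)).1 - x₀)) * (t⁻¹ * t⁻¹) := by
      rw [inv_neg]
      ring
    rw [h4] at ht
    have h5 : 0 < t⁻¹ * t⁻¹ := by positivity
    have h6 := (mul_pos_iff_of_pos_right h5).1 ht
    linarith
  have hsrc : ∀ᶠ t : ℝ in 𝓝 0, t ∈ e.source := e.open_source.mem_nhds h0s
  have hgood : ∀ᶠ t : ℝ in 𝓝 0, t ∈ e.source ∧ g t ≠ 0 :=
    hsrc.and (hgc.continuousAt.eventually_ne hg0)
  obtain ⟨r, hr, hrb⟩ := Metric.eventually_nhds_iff.1 hgood
  have hr' : ∀ᶠ t : ℝ in 𝓝[>] 0, t < r := by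
    filter_upwards [Ioo_mem_nhdsGT hr] with t ht
    exact ht.2
  obtain ⟨t1, ht1, ht1r, ht1pos⟩ :=
    (hprod'.and (hr'.and self_mem_nhdsWithin)).exists
  have ht1p : (0 : ℝ) < t1 := ht1pos
  have hgood' : ∀ t : ℝ, |t| ≤ t1 → t ∈ e.source ∧ g t ≠ 0 := fun t ht => by
    apply hrb
    rw [Real.dist_eq, sub_zero]
    linarith
  -- nearby points
  have hΦt : ∀ t, Continuous fun q => Φ t q := fun t =>
    hΦc.comp (continuous_const.prodMk continuous_id)
  have hq : ContinuousAt (fun x => (x, f x)) x₀ := continuousAt_id.prodMk hf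
  have hnear : ∀ᶠ x in 𝓝 x₀, ((Φ t1 (x, f x)).1 - x₀) * ((Φ (-t1) (x, f x)).1 - x₀) < 0 := by
    have hc : Continuous fun q => ((Φ t1 q).1 - x₀) * ((Φ (-t1) q).1 - x₀) :=
      ((hΦt t1).fst.sub continuous_const).mul ((hΦt (-t1)).fst.sub continuous_const)
    have h1 : ContinuousAt (fun x => ((Φ t1 (x, f x)).1 - x₀) * ((Φ (-t1) (x, f x)).1 - x₀)) x₀ :=
      ContinuousAt.comp (g := fun q => ((Φ t1 q).1 - x₀) * ((Φ (-t1) q).1 - x₀))
        (f := fun x => (x, f x)) hc.continuousAt hq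
    exact h1.eventually (gt_mem_nhds ht1)
  obtain ⟨δ, hδ, hδb⟩ := Metric.eventually_nhds_iff.1 hnear
  -- every nearby point of the graph lies on the orbit of `p0`
  have hkey : ∀ x, |x - x₀| < δ → ∃ t, |t| ≤ t1 ∧ γ t = (x, f x) := by
    intro x hx
    have hx' := hδb (y := x) (by rw [Real.dist_eq]; exact hx)
    set q : ℝ × ℝ := (x, f x) with hqdef
    have hqK : ∀ t, Φ t q ∈ closure (gr f) := by
      refine hInv (fun t => Φ t q) (hΦd q) ?_
      simp only [hΦ0]
      exact subset_closure rfl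
    have hcont : Continuous fun t => (Φ t q).1 - x₀ :=
      ((hΦc.comp (continuous_id.prodMk continuous_const)).fst).sub continuous_const
    have hivt := intermediate_value_uIcc (a := t1) (b := -t1)
      (f := fun t => (Φ t q).1 - x₀) hcont.continuousOn
    have h0mem : (0 : ℝ) ∈ uIcc ((Φ t1 q).1 - x₀) ((Φ (-t1) q).1 - x₀) := by
      rw [mem_uIcc]
      rcases mul_neg_iff.1 hx' with h | h
      · exact Or.inr ⟨h.2.le, h.1.le⟩
      · exact Or.inl ⟨h.1.le, h.2.le⟩
    obtain ⟨s, hs, hs0⟩ := hivt h0mem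
    have hs0' : (Φ s q).1 = x₀ := by
      have : (Φ s q).1 - x₀ = 0 := hs0
      linarith
    have hsp : Φ s q = p0 := closure_gr_point hf (hqK s) hs0'
    refine ⟨-s, ?_, ?_⟩
    · rw [abs_neg, abs_le]
      rw [mem_uIcc] at hs
      rcases hs with h | h
      · constructor <;> linarith [h.1, h.2]
      · exact ⟨h.1, h.2⟩
    · change Φ (-s) p0 = q
      rw [← hsp, ← hΦadd, neg_add_cancel, hΦ0]
  refine ⟨δ, hδ, fun x hx => ?_⟩
  obtain ⟨t, ht, htx⟩ := hkey x hx
  have hts := (hgood' t ht).1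
  have htg := (hgood' t ht).2
  have het : e t = x := by rw [he, htx]
  have hxt : x ∈ e.target := het ▸ e.map_source hts
  have hsymm : e.symm x = t := by rw [← het]; exact e.left_inv hts
  have hder : HasDerivAt e.symm (g t)⁻¹ x := by
    refine HasDerivAt.of_local_left_inverse (f := fun t => (γ t).1) ?_ ?_ htg ?_
    · exact e.continuousAt_symm hxt
    · rw [hsymm]
      exact hγ1 t
    · filter_upwards [e.open_target.mem_nhds hxt] with y hy
      exact e.right_inv hy
  have hcomp : DifferentiableAt ℝ (fun y => (γ (e.symm y)).2) x := by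
    have h1 : HasDerivAt (fun t => (γ t).2) (fd X (γ (e.symm x))).2 (e.symm x) := hγ2 _
    exact (h1.comp x hder).differentiableAt
  refine hcomp.congr_of_eventuallyEq ?_
  have hopen : ∀ᶠ y in 𝓝 x, |y - x₀| < δ := by
    have : IsOpen {y : ℝ | |y - x₀| < δ} := isOpen_lt (by fun_prop) continuous_const
    exact this.mem_nhds hx
  filter_upwards [hopen] with y hy
  obtain ⟨s, hs, hsy⟩ := hkey y hy
  have hes : e s = y := by rw [he, hsy]
  have : e.symm y = s := by rw [← hes]; exact e.left_inv (hgood' s hs).1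
  rw [this, hsy]

end Pool.Agent.H26R3.VR.RegA
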